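import Pool.Agent.V1173.Chordal.Main
import Pool.Agent.V1173.Chordal.Discs

/-!
# Chordal polynomial approximation on discs accumulating at a point

For pairwise disjoint closed discs `D_n` of positive radius converging to `P` and
`L = {P} ∪ ⋃ D_n`, the chordally uniform limits of polynomials on `L` are exactly the functions of
the class `𝓕(L)`.  This is the case of these sets `L` of the chordal Mergelyan theorem proved in
`Pool.Agent.V1173.Chordal`; that `L` is compact with connected complement is proved as well.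
-/

set_option autoImplicit false

namespace Pool.Agent.Results.MP_1b82cc_an.DiscsToPoint

open Set OnePoint Metric

/-- The chordal metric on the Riemann sphere `OnePoint ℂ = ℂ ∪ {∞}`. -/
noncomputable def chordal : OnePoint ℂ → OnePoint ℂ → ℝ
  | OnePoint.some a, OnePoint.some b => ‖a - b‖ / (√(1 + ‖a‖ ^ 2) * √(1 + ‖b‖ ^ 2))
  | OnePoint.some a, OnePoint.infty => 1 / √(1 + ‖a‖ ^ 2)
  | OnePoint.infty, OnePoint.some b => 1 / √(1 + ‖b‖ ^ 2)
  | OnePoint.infty, OnePoint.infty => 0

/-- `f : L → Ĉ` is a `χ`-uniform limit on `L` of a sequence of polynomials. -/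
def IsPolynomialLimit (L : Set ℂ) (f : L → OnePoint ℂ) : Prop :=
  ∃ p : ℕ → Polynomial ℂ, ∀ ε : ℝ, 0 < ε → ∃ N : ℕ, ∀ n ≥ N, ∀ z : L,
    chordal (((p n).eval (z : ℂ) : ℂ) : OnePoint ℂ) (f z) < ε

/-- The class `𝓕(L)`: continuous maps `f : L → Ĉ` such that on each connected component `V` of the
interior of `L` either `f ≡ ∞`, or `f` is finite and holomorphic. -/
def InF (L : Set ℂ) (f : L → OnePoint ℂ) : Prop :=
  Continuous f ∧ ∀ z₀ ∈ interior L,
    (∀ z : L, (z : ℂ) ∈ connectedComponentIn (interior L) z₀ → f z = ∞) ∨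
    ∃ g : ℂ → ℂ, DifferentiableOn ℂ g (connectedComponentIn (interior L) z₀) ∧
      ∀ z : L, (z : ℂ) ∈ connectedComponentIn (interior L) z₀ → f z = ((g z : ℂ) : OnePoint ℂ)

theorem chordal_eq (x y : OnePoint ℂ) : chordal x y = Pool.Agent.V1173.Chordal.chi x y := by
  induction x using OnePoint.rec with
  | infty =>
    induction y using OnePoint.rec with
    | infty => rfl
    | coe b => rfl
  | coe a =>
    induction y using OnePoint.rec with
    | infty => rfl
    | coe b => rfl

/-- **Main theorem.** The chordal Mergelyan property holds for every closed set formed by a point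
and pairwise disjoint closed discs converging to it. -/
theorem result (P : ℂ) (c : ℕ → ℂ) (r : ℕ → ℝ) (hr : ∀ n, 0 < r n)
    (hdisj : ∀ i j, i ≠ j → Disjoint (closedBall (c i) (r i)) (closedBall (c j) (r j)))
    (hconv : ∀ ε : ℝ, 0 < ε → ∃ N : ℕ, ∀ n ≥ N, ∀ z ∈ closedBall (c n) (r n), ‖z - P‖ ≤ ε)
    (L : Set ℂ) (hL : L = {P} ∪ ⋃ n, closedBall (c n) (r n)) (f : L → OnePoint ℂ) :
    IsPolynomialLimit L f ↔ InF L f := by
  obtain ⟨h1, h2⟩ := Pool.Agent.V1173.Chordal.conn_discs hr hdisj hconv
  rw [← hL] at h1 h2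
  have h3 := Pool.Agent.V1173.Chordal.main_iff L h1 h2 f
  unfold IsPolynomialLimit
  simp only [chordal_eq]
  exact h3

end Pool.Agent.Results.MP_1b82cc_an.DiscsToPoint
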